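import Pool.Agent.H37.CND.Defs

/-!
# Denominators of conductors: basic facts on places
-/

set_option autoImplicit false

namespace Pool.CND

open Finset

namespace Place

variable {k L : Type} [Field k] [Field L] [Algebra k L] (P : Place k L)

/-- `x` lies in the `n`-th power of the maximal ideal -/
def Ge (x : L) (n : ℤ) : Prop := x = 0 ∨ n ≤ P.ord x

theorem ge_zero (n : ℤ) : P.Ge 0 n := Or.inl rfl

theorem ge_ord (x : L) : P.Ge x (P.ord x) := Or.inr le_rfl

theorem ge_mono {x : L} {m n : ℤ} (h : P.Ge x n) (hm : m ≤ n) : P.Ge x m := by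
  rcases h with h | h
  · exact Or.inl h
  · exact Or.inr (hm.trans h)

theorem ge_iff {x : L} (hx : x ≠ 0) (n : ℤ) : P.Ge x n ↔ n ≤ P.ord x :=
  ⟨fun h => h.resolve_left hx, Or.inr⟩

theorem not_ge {x : L} {n : ℤ} : ¬ P.Ge x n ↔ x ≠ 0 ∧ P.ord x < n := by
  unfold Ge
  rw [not_or, not_le]

theorem ord_one : P.ord 1 = 0 := by
  have h := P.ord_mul 1 1 one_ne_zero one_ne_zero
  rw [mul_one] at h
  linarith

theorem ord_neg_one : P.ord (-1) = 0 := by
  have h := P.ord_mul (-1) (-1) (by simp) (by simp)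
  rw [neg_one_mul, neg_neg, P.ord_one] at h
  linarith

theorem ord_neg (x : L) : P.ord (-x) = P.ord x := by
  by_cases hx : x = 0
  · rw [hx, neg_zero]
  · have h := P.ord_mul (-1) x (by simp) hx
    rw [neg_one_mul, P.ord_neg_one, zero_add] at h
    exact h

theorem ge_neg {x : L} {n : ℤ} (h : P.Ge x n) : P.Ge (-x) n := by
  rcases h with h | h
  · exact Or.inl (by rw [h, neg_zero])
  · exact Or.inr (by rw [P.ord_neg]; exact h)

theorem ge_add {x y : L} {n : ℤ} (h1 : P.Ge x n) (h2 : P.Ge y n) : P.Ge (x + y) n := by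
  by_cases hx : x = 0
  · rw [hx, zero_add]; exact h2
  by_cases hy : y = 0
  · rw [hy, add_zero]; exact h1
  by_cases hs : x + y = 0
  · exact Or.inl hs
  exact Or.inr ((le_min (h1.resolve_left hx) (h2.resolve_left hy)).trans (P.ord_add x y hx hy hs))

theorem ge_sub {x y : L} {n : ℤ} (h1 : P.Ge x n) (h2 : P.Ge y n) : P.Ge (x - y) n := by
  rw [sub_eq_add_neg]
  exact P.ge_add h1 (P.ge_neg h2)

theorem ge_mul {x y : L} {m n : ℤ} (h1 : P.Ge x m) (h2 : P.Ge y n) : P.Ge (x * y) (m + n) := by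
  by_cases hx : x = 0
  · exact Or.inl (by rw [hx, zero_mul])
  by_cases hy : y = 0
  · exact Or.inl (by rw [hy, mul_zero])
  refine Or.inr ?_
  rw [P.ord_mul x y hx hy]
  exact add_le_add (h1.resolve_left hx) (h2.resolve_left hy)

theorem ge_const (c : k) : P.Ge (algebraMap k L c) 0 := by
  by_cases hc : c = 0
  · exact Or.inl (by rw [hc, map_zero])
  · exact Or.inr (by rw [P.ord_const c hc])

theorem ge_sum {ι : Type} (s : Finset ι) (f : ι → L) (n : ℤ) (h : ∀ i ∈ s, P.Ge (f i) n) :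
    P.Ge (∑ i ∈ s, f i) n := by
  classical
  induction s using Finset.induction_on with
  | empty => exact Or.inl (by simp)
  | insert a s ha ih =>
    rw [Finset.sum_insert ha]
    exact P.ge_add (h a (mem_insert_self a s)) (ih (fun i hi => h i (mem_insert_of_mem hi)))

theorem ord_inv {x : L} (hx : x ≠ 0) : P.ord x⁻¹ = -P.ord x := by
  have h := P.ord_mul x x⁻¹ hx (inv_ne_zero hx)
  rw [mul_inv_cancel₀ hx, P.ord_one] at h
  linarith

theorem ord_div {x y : L} (hx : x ≠ 0) (hy : y ≠ 0) : P.ord (x / y) = P.ord x - P.ord y := by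
  rw [div_eq_mul_inv, P.ord_mul x y⁻¹ hx (inv_ne_zero hy), P.ord_inv hy]
  ring

theorem ord_pow {x : L} (hx : x ≠ 0) (n : ℕ) : P.ord (x ^ n) = n * P.ord x := by
  induction n with
  | zero => simp [P.ord_one]
  | succ n ih =>
    rw [pow_succ, P.ord_mul _ _ (pow_ne_zero n hx) hx, ih]
    push_cast
    ring

theorem ord_zpow {x : L} (hx : x ≠ 0) (n : ℤ) : P.ord (x ^ n) = n * P.ord x := by
  rcases n with n | n
  · rw [Int.ofNat_eq_natCast, zpow_natCast, P.ord_pow hx]
  · rw [zpow_negSucc, P.ord_inv (pow_ne_zero _ hx), P.ord_pow hx]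
    rw [Int.negSucc_eq]
    push_cast
    ring

/-- the strict triangle (in)equality -/
theorem ord_add_of_lt {x y : L} (hx : x ≠ 0) (h : P.Ge y (P.ord x + 1)) :
    x + y ≠ 0 ∧ P.ord (x + y) = P.ord x := by
  by_cases hy : y = 0
  · rw [hy, add_zero]; exact ⟨hx, rfl⟩
  have h1 : P.ord x + 1 ≤ P.ord y := h.resolve_left hy
  have hs : x + y ≠ 0 := by
    intro hs
    have : y = -x := by linear_combination hs
    rw [this, P.ord_neg] at h1
    omega
  refine ⟨hs, le_antisymm ?_ ?_⟩
  · by_contra hc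
    rw [not_le] at hc
    have h2 := P.ord_add (x + y) (-y) hs (neg_ne_zero.2 hy) (by rwa [add_neg_cancel_right])
    rw [add_neg_cancel_right, P.ord_neg] at h2
    have h3 : P.ord x + 1 ≤ min (P.ord (x + y)) (P.ord y) := le_min (by omega) h1
    omega
  · have h2 := P.ord_add x y hx hy hs
    have h3 : P.ord x ≤ min (P.ord x) (P.ord y) := le_min le_rfl (by omega)
    omega

/-- a uniformiser -/
noncomputable def pi : L := Classical.choose P.ord_surj

theorem pi_ne : P.pi ≠ 0 := (Classical.choose_spec P.ord_surj).1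

theorem ord_pi : P.ord P.pi = 1 := (Classical.choose_spec P.ord_surj).2

/-- the lower ramification number of an automorphism -/
noncomputable def b (g : L ≃ₐ[k] L) : ℤ := P.ord (g P.pi - P.pi) - 1

end Place

section

variable {k L : Type} [Field k] [Field L] [Algebra k L] {P : Place k L}

theorem Fixes.ge {g : L ≃ₐ[k] L} (h : Fixes P g) {x : L} {n : ℤ} (hx : P.Ge x n) :
    P.Ge (g x) n := by
  by_cases h0 : x = 0
  · exact Or.inl (by rw [h0, map_zero])
  · exact Or.inr (by rw [h x h0]; exact hx.resolve_left h0)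

theorem Fixes.one : Fixes P (1 : L ≃ₐ[k] L) := fun _ _ => rfl

theorem Fixes.mul {g g' : L ≃ₐ[k] L} (h : Fixes P g) (h' : Fixes P g') : Fixes P (g * g') := by
  intro x hx
  rw [AlgEquiv.mul_apply, h _ (by simpa using hx), h' x hx]

theorem Fixes.inv {g : L ≃ₐ[k] L} (h : Fixes P g) : Fixes P g⁻¹ := by
  intro x hx
  have h0 : g⁻¹ x ≠ 0 := by simpa using hx
  have h1 := h (g⁻¹ x) h0
  rw [← AlgEquiv.mul_apply, mul_inv_cancel, AlgEquiv.one_apply] at h1
  exact h1.symm

theorem Fixes.pow {g : L ≃ₐ[k] L} (h : Fixes P g) (n : ℕ) : Fixes P (g ^ n) := by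
  induction n with
  | zero => rw [pow_zero]; exact Fixes.one
  | succ n ih => rw [pow_succ]; exact ih.mul h

end

end Pool.CND
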