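import Mathlib

/-!
# Denominators of conductors (MP_b57703): definitions

Rows of the board `cnd`: row `XXX` is a theorem `xxx_thm (h1 : S_AAA) ... : S_XXX` in
`Pool/Agent/H<k>/CND/XXX.lean` (import `Pool.Agent.H37.CND.Stmts`, namespace `Pool.CND`).
-/

set_option autoImplicit false

namespace Pool.CND

open Finset

/-- a normalised discrete valuation of `L`, trivial on `k`, with residue field `k` -/
structure Place (k L : Type) [Field k] [Field L] [Algebra k L] where
  ord : L → ℤ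
  ord_mul : ∀ x y : L, x ≠ 0 → y ≠ 0 → ord (x * y) = ord x + ord y
  ord_add : ∀ x y : L, x ≠ 0 → y ≠ 0 → x + y ≠ 0 → min (ord x) (ord y) ≤ ord (x + y)
  ord_surj : ∃ x : L, x ≠ 0 ∧ ord x = 1
  ord_const : ∀ c : k, c ≠ 0 → ord (algebraMap k L c) = 0
  residue : ∀ x : L, x ≠ 0 → 0 ≤ ord x →
    ∃ c : k, x = algebraMap k L c ∨ 0 < ord (x - algebraMap k L c)

section

variable {k L G : Type} [Field k] [Field L] [Algebra k L] [Group G]

/-- `g` fixes the place `P` -/
def Fixes (P : Place k L) (g : L ≃ₐ[k] L) : Prop := ∀ x : L, x ≠ 0 → P.ord (g x) = P.ord x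

/-- the lower ramification groups `I_i` at `P` -/
def ram (P : Place k L) (ρ : G →* (L ≃ₐ[k] L)) (i : ℕ) : Set G :=
  {g | Fixes P (ρ g) ∧ ∀ u : L, u ≠ 0 → P.ord u = 1 → ρ g u = u ∨ (i : ℤ) + 1 ≤ P.ord (ρ g u - u)}

/-- `c` is the largest upper ramification break at `P`: the value at the largest lower break `l` of
Herbrand's function `x ↦ (|I_1| + ... + |I_x|) / |I_0|` -/
def IsConductor (P : Place k L) (ρ : G →* (L ≃ₐ[k] L)) (c : ℚ) : Prop :=
  ∃ l : ℕ, ram P ρ l ≠ {1} ∧ ram P ρ (l + 1) = {1} ∧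
    c = (∑ i ∈ Icc 1 l, ((ram P ρ i).ncard : ℚ)) / (ram P ρ 0).ncard

/-- `L` with the action `ρ` of `G` is the function field of a `G`-Galois cover of the projective
line with coordinate `t`, branched only at `t = ∞` -/
structure IsCover (ρ : G →* (L ≃ₐ[k] L)) (t : L) : Prop where
  inj : Function.Injective ρ
  trans : Transcendental k t
  fixed : ∀ x : L, (∀ g : G, ρ g x = x) ↔ x ∈ IntermediateField.adjoin k {t}
  unram : ∀ P : Place k L, 0 ≤ P.ord t → ∀ g : G, Fixes P (ρ g) → g = 1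

end

/-- the conductors of the `G`-Galois covers of the projective line branched only at infinity -/
def Cond (k G : Type) [Field k] [Group G] : Set ℚ :=
  {c | ∃ (L : Type) (_ : Field L) (_ : Algebra k L) (ρ : G →* (L ≃ₐ[k] L)) (t : L),
    IsCover ρ t ∧ ∃ P : Place k L, P.ord t < 0 ∧ IsConductor P ρ c}

/-- `N_G`: the least `N ≥ 1` such that only finitely many conductors lie outside `(1 / N) ℤ` -/
noncomputable def NG (k G : Type) [Field k] [Group G] : ℕ :=
  sInf {N : ℕ | 1 ≤ N ∧ {c : ℚ | c ∈ Cond k G ∧ ¬ ∃ z : ℤ, (N : ℚ) * c = z}.Finite}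

end Pool.CND
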