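import Pool.Agent.H37.CND.Base

/-!
# Denominators of conductors: the groups `EG k p h` (extraspecial of order `p ^ (2 h + 1)`)
-/

set_option autoImplicit false

namespace Pool.CND

open Finset

/-- `B_w(x) = - ∑_{i < h} (w ^ q x) ^ (p ^ i)`, `q = p ^ h` -/
def Bf {R : Type} [CommRing R] (p h : ℕ) (w x : R) : R :=
  -∑ i ∈ range h, (w ^ (p ^ h) * x) ^ (p ^ i)

section

variable {R : Type} [CommRing R] {p : ℕ} [Fact p.Prime] [CharP R p] (h : ℕ)

omit [CharP R p] in
theorem Bf_zero_right (w : R) : Bf p h w 0 = 0 := by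
  have hp := (Fact.out : p.Prime)
  rw [Bf, sum_eq_zero, neg_zero]
  intro i _
  rw [mul_zero, zero_pow (pow_ne_zero i hp.ne_zero)]

omit [CharP R p] in
theorem Bf_zero_left (x : R) : Bf p h 0 x = 0 := by
  have hp := (Fact.out : p.Prime)
  rw [Bf, sum_eq_zero, neg_zero]
  intro i _
  rw [zero_pow (pow_ne_zero h hp.ne_zero), zero_mul, zero_pow (pow_ne_zero i hp.ne_zero)]

theorem Bf_add_right (w x y : R) : Bf p h w (x + y) = Bf p h w x + Bf p h w y := by
  rw [Bf, Bf, Bf, ← neg_add, ← sum_add_distrib]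
  congr 1
  refine sum_congr rfl fun i _ => ?_
  rw [mul_add, add_pow_char_pow]

theorem Bf_add_left (v w x : R) : Bf p h (v + w) x = Bf p h v x + Bf p h w x := by
  rw [Bf, Bf, Bf, ← neg_add, ← sum_add_distrib]
  congr 1
  refine sum_congr rfl fun i _ => ?_
  rw [add_pow_char_pow, add_mul, add_pow_char_pow]

theorem Bf_neg_right (w x : R) : Bf p h w (-x) = -Bf p h w x := by
  have := Bf_add_right (p := p) h w x (-x)
  rw [add_neg_cancel, Bf_zero_right] at this
  linear_combination -this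

theorem Bf_neg_left (w x : R) : Bf p h (-w) x = -Bf p h w x := by
  have := Bf_add_left (p := p) h w (-w) x
  rw [add_neg_cancel, Bf_zero_left] at this
  linear_combination -this

theorem Bf_frob (w x : R) :
    (Bf p h w x) ^ p - Bf p h w x = w ^ (p ^ h) * x - (w ^ (p ^ h) * x) ^ (p ^ h) := by
  have h1 : (Bf p h w x) ^ p = -∑ i ∈ range h, (w ^ (p ^ h) * x) ^ (p ^ (i + 1)) := by
    have e1 : (-∑ i ∈ range h, (w ^ (p ^ h) * x) ^ (p ^ i)) ^ p =
        -(∑ i ∈ range h, (w ^ (p ^ h) * x) ^ (p ^ i)) ^ p := by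
      have := map_neg (frobenius R p) (∑ i ∈ range h, (w ^ (p ^ h) * x) ^ (p ^ i))
      rwa [frobenius_def, frobenius_def] at this
    rw [Bf, e1, ← frobenius_def, map_sum]
    congr 1
    refine sum_congr rfl fun i _ => ?_
    rw [frobenius_def, ← pow_mul, pow_succ]
  rw [h1, Bf]
  have h2 := sum_range_succ (fun i => (w ^ (p ^ h) * x) ^ (p ^ i)) h
  have h3 := sum_range_succ' (fun i => (w ^ (p ^ h) * x) ^ (p ^ i)) h
  rw [h3, pow_zero, pow_one] at h2
  linear_combination -h2

omit [Fact p.Prime] [CharP R p] in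
theorem Bf_map {R' : Type} [CommRing R'] (φ : R →+* R') (w x : R) :
    φ (Bf p h w x) = Bf p h (φ w) (φ x) := by
  simp [Bf]

end

/-- the group of the pairs `(w, β)`, `w ^ (q ^ 2) = -w`, `β ^ p - β = w ^ (q + 1)` (`q = p ^ h`), acting by
`x ↦ x + w`, `y ↦ y + B_w(x) + β` -/
def EG (k : Type) [Field k] (p h : ℕ) : Type :=
  {z : k × k // z.1 ^ (p ^ (2 * h)) = -z.1 ∧ z.2 ^ p - z.2 = z.1 ^ (p ^ h + 1)}

namespace EG

variable {k : Type} [Field k] {p h : ℕ}

/-- first coordinate -/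
def w (g : EG k p h) : k := g.1.1

/-- second coordinate -/
def β (g : EG k p h) : k := g.1.2

theorem w_pow (g : EG k p h) : g.w ^ (p ^ (2 * h)) = -g.w := g.2.1

theorem β_eq (g : EG k p h) : g.β ^ p - g.β = g.w ^ (p ^ h + 1) := g.2.2

@[ext] theorem ext {g g' : EG k p h} (h1 : g.w = g'.w) (h2 : g.β = g'.β) : g = g' :=
  Subtype.ext (Prod.ext h1 h2)

variable [Fact p.Prime] [CharP k p]

theorem frob_w (g : EG k p h) (x : k) :
    (Bf p h g.w x) ^ p - Bf p h g.w x = g.w ^ (p ^ h) * x + g.w * x ^ (p ^ h) := by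
  rw [Bf_frob, mul_pow, ← pow_mul, ← pow_add, ← two_mul, g.w_pow]
  ring

theorem sub_pow_p (a b : k) : (a + b) ^ p - (a + b) = (a ^ p - a) + (b ^ p - b) := by
  rw [add_pow_char]
  ring

instance : Mul (EG k p h) where
  mul g g' := ⟨(g.w + g'.w, g.β + g'.β + Bf p h g'.w g.w), by
    refine ⟨?_, ?_⟩
    · show (g.w + g'.w) ^ (p ^ (2 * h)) = -(g.w + g'.w)
      rw [add_pow_char_pow, g.w_pow, g'.w_pow]
      ring
    · show (g.β + g'.β + Bf p h g'.w g.w) ^ p - (g.β + g'.β + Bf p h g'.w g.w) =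
        (g.w + g'.w) ^ (p ^ h + 1)
      rw [sub_pow_p, sub_pow_p, g.β_eq, g'.β_eq, g'.frob_w, pow_succ (g.w + g'.w),
        add_pow_char_pow]
      ring⟩

theorem mul_w (g g' : EG k p h) : (g * g').w = g.w + g'.w := rfl

theorem mul_β (g g' : EG k p h) : (g * g').β = g.β + g'.β + Bf p h g'.w g.w := rfl

instance : One (EG k p h) where
  one := ⟨(0, 0), by
    have hp := (Fact.out : p.Prime)
    refine ⟨?_, ?_⟩
    · show (0 : k) ^ (p ^ (2 * h)) = -0
      rw [zero_pow (pow_ne_zero _ hp.ne_zero), neg_zero]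
    · show (0 : k) ^ p - 0 = 0 ^ (p ^ h + 1)
      rw [zero_pow hp.ne_zero, zero_pow (Nat.succ_ne_zero _), sub_zero]⟩

omit [CharP k p] in
theorem one_w : (1 : EG k p h).w = 0 := rfl

omit [CharP k p] in
theorem one_β : (1 : EG k p h).β = 0 := rfl

instance : Inv (EG k p h) where
  inv g := ⟨(-g.w, -g.β + Bf p h g.w g.w), by
    have e : ∀ a : k, (-a) ^ p = -a ^ p := fun a => by
      have := map_neg (frobenius k p) a
      rwa [frobenius_def, frobenius_def] at this
    have e2 : ∀ (a : k) (n : ℕ), (-a) ^ (p ^ n) = -a ^ (p ^ n) := fun a n => by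
      have := map_neg (iterateFrobenius k p n) a
      rwa [iterateFrobenius_def, iterateFrobenius_def] at this
    refine ⟨?_, ?_⟩
    · show (-g.w) ^ (p ^ (2 * h)) = - -g.w
      rw [e2, g.w_pow]
    · show (-g.β + Bf p h g.w g.w) ^ p - (-g.β + Bf p h g.w g.w) = (-g.w) ^ (p ^ h + 1)
      rw [sub_pow_p, g.frob_w, e, pow_succ (-g.w), e2]
      have := g.β_eq
      rw [pow_succ g.w] at this
      linear_combination -this⟩

theorem inv_w (g : EG k p h) : (g⁻¹).w = -g.w := rfl

theorem inv_β (g : EG k p h) : (g⁻¹).β = -g.β + Bf p h g.w g.w := rfl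

instance : Group (EG k p h) where
  mul_assoc a b c := by
    ext
    · simp only [mul_w]; ring
    · simp only [mul_w, mul_β, Bf_add_left, Bf_add_right]; ring
  one_mul a := by
    ext
    · simp only [mul_w, one_w]; ring
    · simp only [mul_β, one_β, one_w, Bf_zero_right]; ring
  mul_one a := by
    ext
    · simp only [mul_w, one_w]; ring
    · simp only [mul_β, one_β, one_w, Bf_zero_left]; ring
  inv_mul_cancel a := by
    ext
    · simp only [mul_w, inv_w, one_w]; ring
    · simp only [mul_β, inv_β, inv_w, one_β, Bf_neg_right]; ring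

end EG

end Pool.CND
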