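import Pool.Agent.H37.CND.Grp

/-!
# Denominators of conductors: the statements of the rows

Row `XXX` is a theorem `xxx_thm (h1 : S_AAA) ... : S_XXX` (hypotheses: the rows it needs) in
`Pool/Agent/H<k>/CND/XXX.lean`, importing this file, namespace `Pool.CND`.

Notation: `P.Ge x n` is `x = 0 ∨ n ≤ ord x`; `P.b g = ord (g π - π) - 1` for the chosen uniformiser
`π = P.pi`; `Fixes P g`: `g` preserves `ord`.  No row needs completeness or Herbrand functions.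
-/

set_option autoImplicit false

namespace Pool.CND

open Finset

/-! ## Group theory and combinatorics -/

/-- elementary abelian -/
def EA {G : Type} [Group G] (p : ℕ) (A : Subgroup G) : Prop :=
  (∀ a ∈ A, a ^ p = 1) ∧ ∀ a ∈ A, ∀ b ∈ A, a * b = b * a

/-- sum of `b` over a set -/
noncomputable def sm {G : Type} [Fintype G] (b : G → ℤ) (T : Set G) : ℤ :=
  open scoped Classical in ∑ g ∈ univ.filter (fun g => g ∈ T), b g

/-- `b` is a depth function on `I` -/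
structure UM {G : Type} [Group G] (b : G → ℤ) (I : Subgroup G) : Prop where
  pos : ∀ g ∈ I, g ≠ 1 → 1 ≤ b g
  inv : ∀ g ∈ I, g ≠ 1 → b g⁻¹ = b g
  mul : ∀ g ∈ I, ∀ g' ∈ I, g ≠ 1 → g' ≠ 1 → g * g' ≠ 1 → min (b g) (b g') ≤ b (g * g')

/-- `l` is the last value of `b` on `I` -/
structure IsLst {G : Type} [Group G] (b : G → ℤ) (I : Subgroup G) (l : ℤ) : Prop where
  mem : ∃ g ∈ I, g ≠ 1 ∧ b g = l
  le : ∀ g ∈ I, g ≠ 1 → b g ≤ l

/-- `U(I) = (l + ∑_{g ∈ I, g ≠ 1} b g) / |I|` -/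
noncomputable def U {G : Type} [Group G] [Fintype G] (b : G → ℤ) (I : Subgroup G) (l : ℤ) : ℚ :=
  ((l : ℚ) + sm b {g | g ∈ I ∧ g ≠ 1}) / Nat.card I

/-- Herbrand property of `b` on the subgroups of `W` -/
def HB {G : Type} [Group G] [Fintype G] (p : ℕ) (b : G → ℤ) (W : Subgroup G) : Prop :=
  ∀ N I : Subgroup G, N ≤ I → I ≤ W → Nat.card I = p * Nat.card N →
    (∀ g ∈ I, ∀ n ∈ N, g * n * g⁻¹ ∈ N) →
    ∃ B : ℤ, ¬ (p : ℤ) ∣ B ∧ ∀ g ∈ I, g ∉ N → sm b {x | g⁻¹ * x ∈ N} = Nat.card N * B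

/-- CMB: combinatorial step.  `I \ N` is the union of `p - 1` cosets `g N`, each with sum `|N| B`.
Let `j = max b` on `I \ N`, `l' = max b` on `N \ 1`.  If `N ≠ 1` and `l' ≥ j`: `l = l'`, second
alternative.  If `N = 1` or `l' < j` take `g` with `b g = j = l`: `b (g n) = b n` for `n ∈ N`, `n ≠ 1`, so
`|N| B = l + ∑_{n ≠ 1} b n` and `U = B`.  Last part: also if `l' = j = l` one has `b (g n) = b n`
(`b n < l`: strict ultrametric; `b n = l`: `l ≤ b (g n) ≤ l`), so `U(N) = B` and `U(I) = B`. -/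
def S_CMB : Prop := ∀ (p : ℕ) (G : Type) [Group G] [Fintype G] (b : G → ℤ) (N I : Subgroup G)
  (B l : ℤ), p.Prime → UM b I → N ≤ I → Nat.card I = p * Nat.card N →
  (∀ g ∈ I, g ∉ N → sm b {x | g⁻¹ * x ∈ N} = Nat.card N * B) → IsLst b I l →
  (U b I l = B ∨ ∃ l' : ℤ, IsLst b N l' ∧ (p : ℚ) * U b I l = U b N l' + ((p : ℚ) - 1) * B) ∧
    ((∃ g ∈ I, g ∉ N ∧ b g = l) → U b I l = B)

/-- ELG: hyperplane of an elementary abelian group avoiding `g ≠ 1` -/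
def S_ELG : Prop := ∀ (p : ℕ) (G : Type) [Group G] [Finite G] (A : Subgroup G), p.Prime → EA p A →
  ∀ g ∈ A, g ≠ 1 → ∃ N : Subgroup G, N ≤ A ∧ g ∉ N ∧ Nat.card A = p * Nat.card N

/-- ELA: from `ELG`, `HB`, last part of `CMB` (`g` with `b g = l`) -/
def S_ELA : Prop := ∀ (p : ℕ) (G : Type) [Group G] [Fintype G] (b : G → ℤ) (A : Subgroup G) (l : ℤ),
  p.Prime → UM b A → HB p b A → EA p A → IsLst b A l → ∃ z : ℤ, ¬ (p : ℤ) ∣ z ∧ U b A l = z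

/-- MAX: a proper subgroup of a `p`-group lies in a normal subgroup of index `p` -/
def S_MAX : Prop := ∀ (p : ℕ) (G : Type) [Group G] [Finite G] (I A : Subgroup G), p.Prime →
  (∃ n : ℕ, Nat.card I = p ^ n) → A ≤ I → A ≠ I →
  ∃ N : Subgroup G, A ≤ N ∧ N ≤ I ∧ Nat.card I = p * Nat.card N ∧
    ∀ g ∈ I, ∀ n ∈ N, g * n * g⁻¹ ∈ N

/-- IND: induction on `d` with `MAX`, `CMB`, `ELA`.  `p = 2`, `d = 1`: `N = A`, `U(A)` and `B` are odd. -/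
def S_IND : Prop := ∀ (p : ℕ) (G : Type) [Group G] [Fintype G] (b : G → ℤ) (I A : Subgroup G)
  (d : ℕ) (l : ℤ), p.Prime → UM b I → HB p b I → (∃ n : ℕ, Nat.card I = p ^ n) → A ≤ I → EA p A →
  Nat.card I = p ^ d * Nat.card A → IsLst b I l →
  (∃ z : ℤ, (p : ℚ) ^ d * U b I l = z) ∧
    (p = 2 → 1 ≤ d → ∃ z : ℤ, (2 : ℚ) ^ (d - 1) * U b I l = z)

/-- SYG: Sylow.  `A ≤ S`, `[S : A] = p ^ d`, `W ≤ g S g⁻¹`, `A' = W ∩ g A g⁻¹` -/
def S_SYG : Prop := ∀ (p : ℕ) (G : Type) [Group G] [Finite G] (A W : Subgroup G) (d m : ℕ),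
  p.Prime → EA p A → ¬ p ∣ m → Nat.card G = p ^ d * Nat.card A * m →
  (∃ n : ℕ, Nat.card W = p ^ n) →
  ∃ (A' : Subgroup G) (d' : ℕ), A' ≤ W ∧ d' ≤ d ∧ EA p A' ∧ Nat.card W = p ^ d' * Nat.card A'

/-! ## Places and automorphisms -/

/-- EXP: leading coefficient (`residue` for `x / u ^ ord x`; here `ord x` may be negative) -/
def S_EXP : Prop := ∀ (k L : Type) [Field k] [Field L] [Algebra k L] (P : Place k L) (u x : L),
  u ≠ 0 → P.ord u = 1 → x ≠ 0 →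
  ∃ c : k, c ≠ 0 ∧ P.Ge (x - algebraMap k L c * u ^ (P.ord x)) (P.ord x + 1)

/-- ZPW: `g u = u (1 + a u ^ i + ...)`, so `g (u ^ n) = u ^ n (1 + n a u ^ i + ...)`, `n ∈ ℤ` -/
def S_ZPW : Prop := ∀ (k L : Type) [Field k] [Field L] [Algebra k L] (P : Place k L)
  (g : L ≃ₐ[k] L) (u : L) (a : k) (i : ℤ), Fixes P g → u ≠ 0 → P.ord u = 1 → 1 ≤ i →
  P.Ge (g u - u - algebraMap k L a * u ^ (i + 1)) (i + 2) →
  ∀ n : ℤ, P.Ge (g (u ^ n) - u ^ n - algebraMap k L ((n : k) * a) * u ^ (n + i)) (n + i + 1)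

/-- LON: from one uniformiser to all `x` (`i = 0` trivial).  For every `T`:
`g x - x` is `Ge (min (ord x + i) T)` by downward induction on `ord x < T` (`EXP`, `ZPW`); the
coefficient `a` in `ZPW` is the leading one, or `0` if `g u - u` is `Ge (i + 2)`. -/
def S_LON : Prop := ∀ (k L : Type) [Field k] [Field L] [Algebra k L] (P : Place k L)
  (g : L ≃ₐ[k] L) (u : L) (i : ℤ), Fixes P g → u ≠ 0 → P.ord u = 1 → 0 ≤ i →
  P.Ge (g u - u) (i + 1) → ∀ x : L, P.Ge (g x - x) (P.ord x + i) ∨ x = 0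

/-- LO2: characteristic `p`: exact order of `g x - x` for `x` of order prime to `p` -/
def S_LO2 : Prop := ∀ (p : ℕ) (k L : Type) [Field k] [Field L] [Algebra k L] (P : Place k L)
  (g : L ≃ₐ[k] L) (u : L) (i : ℤ), p.Prime → CharP k p → Fixes P g → u ≠ 0 → P.ord u = 1 → 1 ≤ i →
  g u ≠ u → P.ord (g u - u) = i + 1 → ∀ x : L, x ≠ 0 →
  (¬ (p : ℤ) ∣ P.ord x → g x ≠ x ∧ P.ord (g x - x) = P.ord x + i) ∧
    ((p : ℤ) ∣ P.ord x → P.Ge (g x - x) (P.ord x + i + 1))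

/-- INJ: `g u = u` for one uniformiser gives `g = 1` (`LON` for all `i`) -/
def S_INJ : Prop := ∀ (k L : Type) [Field k] [Field L] [Algebra k L] (P : Place k L)
  (g : L ≃ₐ[k] L) (u : L), Fixes P g → u ≠ 0 → P.ord u = 1 → g u = u → g = 1

/-- IRR: `b` is prime to `p`.  If `p ∣ i` then `(g - 1) ^ j u` has order `1 + j i`, never `0` (`LO2`), but
`(g - 1) ^ (p ^ r) = g ^ (p ^ r) - 1 = 0` in characteristic `p`. -/
def S_IRR : Prop := ∀ (p : ℕ) (k L : Type) [Field k] [Field L] [Algebra k L] (P : Place k L)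
  (g : L ≃ₐ[k] L) (u : L) (i : ℤ) (r : ℕ), p.Prime → CharP k p → Fixes P g → u ≠ 0 →
  P.ord u = 1 → 1 ≤ i → g u ≠ u → P.ord (g u - u) = i + 1 → g ^ (p ^ r) = 1 → ¬ (p : ℤ) ∣ i

/-- RAM: `ram` in terms of `b` (`LON`, `INJ`) -/
def S_RAM : Prop := ∀ (k L G : Type) [Field k] [Field L] [Algebra k L] [Group G] (P : Place k L)
  (ρ : G →* (L ≃ₐ[k] L)) (g : G) (i : ℕ), 1 ≤ i →
  (g ∈ ram P ρ i ↔ Fixes P (ρ g) ∧ (ρ g = 1 ∨ (i : ℤ) ≤ P.b (ρ g)))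

/-- SUB: `ram 0`, `ram 1` are subgroups (directly from the definitions) -/
def S_SUB : Prop := ∀ (k L G : Type) [Field k] [Field L] [Algebra k L] [Group G] (P : Place k L)
  (ρ : G →* (L ≃ₐ[k] L)), ∃ W I : Subgroup G, (W : Set G) = ram P ρ 1 ∧ (I : Set G) = ram P ρ 0 ∧
  W ≤ I ∧ ∀ g ∈ I, ∀ n ∈ W, g * n * g⁻¹ ∈ W

/-- WPG: elements of `ram 1` have `p`-power order.  `g ^ j u - u = j a u ^ (i + 1) + Ge (i + 2)`
(`EXP`, `LON`), so `b (g ^ p) > b g` or `g ^ p = 1`. -/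
def S_WPG : Prop := ∀ (p : ℕ) (k L G : Type) [Field k] [Field L] [Algebra k L] [Group G] [Finite G]
  (P : Place k L) (ρ : G →* (L ≃ₐ[k] L)), p.Prime → CharP k p → Function.Injective ρ →
  ∀ g ∈ ram P ρ 1, ∃ r : ℕ, g ^ (p ^ r) = 1

/-- TMO: `g u = c u + Ge 2`, `g ^ p u = c ^ p u + Ge 2`, `c ^ p = 1` gives `c = 1` -/
def S_TMO : Prop := ∀ (p : ℕ) (k L G : Type) [Field k] [Field L] [Algebra k L] [Group G]
  (P : Place k L) (ρ : G →* (L ≃ₐ[k] L)), p.Prime → CharP k p →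
  ∀ g ∈ ram P ρ 0, g ^ p ∈ ram P ρ 1 → g ∈ ram P ρ 1

/-- WLD: from `SUB`, `WPG`, `TMO` (Cauchy in `I / W`) -/
def S_WLD : Prop := ∀ (p : ℕ) (k L G : Type) [Field k] [Field L] [Algebra k L] [Group G] [Finite G]
  (P : Place k L) (ρ : G →* (L ≃ₐ[k] L)), p.Prime → CharP k p → Function.Injective ρ →
  ∃ W I : Subgroup G, (W : Set G) = ram P ρ 1 ∧ (I : Set G) = ram P ρ 0 ∧ W ≤ I ∧
    (∃ n : ℕ, Nat.card W = p ^ n) ∧ ∃ m : ℕ, ¬ p ∣ m ∧ Nat.card I = m * Nat.card W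

/-- UMW: `b` is a depth function on `ram 1` (`RAM`, `LON`, `INJ`) -/
def S_UMW : Prop := ∀ (k L G : Type) [Field k] [Field L] [Algebra k L] [Group G] (P : Place k L)
  (ρ : G →* (L ≃ₐ[k] L)) (W : Subgroup G), Function.Injective ρ → (W : Set G) = ram P ρ 1 →
  UM (fun g => P.b (ρ g)) W

/-- TOT: total ramification.  Let `d` be the least positive order of an element fixed by `N` (the norm
of `u` has order `|N|`, so `d ≤ |N|`; all orders of fixed elements are multiples of `d`).  If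
`|N| > d` there are `c_n ∈ L`, not all `0`, with `∑ c_n n(u ^ j) = 0` for `0 ≤ j < d`; every `z ∈ L` is, up
to `Ge T` for any `T`, a sum of terms `a u ^ j`, `a` fixed, `0 ≤ j < d` (`EXP`), so `∑ c_n n(z) = 0` for all
`z`, against the independence of characters. -/
def S_TOT : Prop := ∀ (k L G : Type) [Field k] [Field L] [Algebra k L] [Group G] [Finite G]
  (P : Place k L) (ρ : G →* (L ≃ₐ[k] L)) (N : Subgroup G), Function.Injective ρ →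
  (∀ n ∈ N, Fixes P (ρ n)) → ∀ x : L, x ≠ 0 → (∀ n ∈ N, ρ n x = x) → (Nat.card N : ℤ) ∣ P.ord x

/-- FXP: the place of the fixed field (`TOT`; uniformiser: the norm of `P.pi`) -/
def S_FXP : Prop := ∀ (k L G : Type) [Field k] [Field L] [Algebra k L] [Group G] [Finite G]
  (P : Place k L) (ρ : G →* (L ≃ₐ[k] L)) (N : Subgroup G), Function.Injective ρ →
  (∀ n ∈ N, Fixes P (ρ n)) → ∃ F : IntermediateField k L, (∀ x, x ∈ F ↔ ∀ n ∈ N, ρ n x = x) ∧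
  ∃ Q : Place k F, ∀ x : F, x ≠ 0 → (Nat.card N : ℤ) * Q.ord x = P.ord (x : L)

/-- RST: restriction of `g` to the fixed field -/
def S_RST : Prop := ∀ (k L G : Type) [Field k] [Field L] [Algebra k L] [Group G] [Finite G]
  (P : Place k L) (ρ : G →* (L ≃ₐ[k] L)) (N : Subgroup G) (F : IntermediateField k L)
  (Q : Place k F) (g : G), (∀ x, x ∈ F ↔ ∀ n ∈ N, ρ n x = x) →
  (∀ x : F, x ≠ 0 → (Nat.card N : ℤ) * Q.ord x = P.ord (x : L)) →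
  (∀ n ∈ N, g * n * g⁻¹ ∈ N) → (∀ n ∈ N, g⁻¹ * n * g ∈ N) → Fixes P (ρ g) →
  ∃ γ : F ≃ₐ[k] F, (∀ x : F, ((γ x : F) : L) = ρ g x) ∧ Fixes Q γ

/-- ART: Artin, `Gal(L / L ^ N) = N` -/
def S_ART : Prop := ∀ (k L G : Type) [Field k] [Field L] [Algebra k L] [Group G] [Finite G]
  (ρ : G →* (L ≃ₐ[k] L)) (N : Subgroup G) (g : G), Function.Injective ρ →
  (∀ x : L, (∀ n ∈ N, ρ n x = x) → ρ g x = x) → g ∈ N

/-- HER: Herbrand.  `f = ∏ (X - n u) = ∑ c_j X ^ j`, `u = P.pi`, `c_j ∈ F`, `f ^ g = ∏ (X - g n u)`;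
`ord f ^ g (u) = ∑_{x ∈ g N} (b x + 1)`; and `f ^ g (u) = ∑ (γ c_j - c_j) u ^ j`: the term `j = 0` has
order `|N| (1 + Q.b γ)` (`c_0` is `±` the norm of `u`, a uniformiser of `F`; `LON` both ways), the
terms `1 ≤ j < |N|` are `Ge (|N| (1 + Q.b γ) + j)` (`Q.ord c_j ≥ 1`; `LON` with `i = Q.b γ`). -/
def S_HER : Prop := ∀ (k L G : Type) [Field k] [Field L] [Algebra k L] [Group G] [Fintype G]
  (P : Place k L) (ρ : G →* (L ≃ₐ[k] L)) (N : Subgroup G) (F : IntermediateField k L)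
  (Q : Place k F) (g : G) (γ : F ≃ₐ[k] F), Function.Injective ρ → (∀ n ∈ N, Fixes P (ρ n)) →
  (∀ x, x ∈ F ↔ ∀ n ∈ N, ρ n x = x) →
  (∀ x : F, x ≠ 0 → (Nat.card N : ℤ) * Q.ord x = P.ord (x : L)) →
  g ∉ N → Fixes P (ρ g) → (∀ x : F, ((γ x : F) : L) = ρ g x) → Fixes Q γ → γ ≠ 1 →
  sm (fun x => P.b (ρ x)) {x | g⁻¹ * x ∈ N} = Nat.card N * Q.b γ

/-- SAM: `b` of a generator (`LON`, `INJ`) -/
def S_SAM : Prop := ∀ (p : ℕ) (k L : Type) [Field k] [Field L] [Algebra k L] (P : Place k L)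
  (g : L ≃ₐ[k] L) (a : ℕ), p.Prime → Fixes P g → g ^ p = 1 → g ≠ 1 → ¬ p ∣ a → P.b (g ^ a) = P.b g

/-- HBP: Herbrand property of `ram 1`: `FXP`, `RST`, `ART`, `HER`, `SAM`, `IRR` (for `Q`, `γ`, `γ ^ p = 1`;
`1 ≤ Q.b γ` since `∑_{x ∈ g N} b x = |N| Q.b γ` and all `b x ≥ 1`), `UMW`; `I / N` is cyclic of order `p` -/
def S_HBP : Prop := ∀ (p : ℕ) (k L G : Type) [Field k] [Field L] [Algebra k L] [Group G]
  [Fintype G] (P : Place k L) (ρ : G →* (L ≃ₐ[k] L)) (W : Subgroup G), p.Prime → CharP k p →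
  Function.Injective ρ → (W : Set G) = ram P ρ 1 → HB p (fun g => P.b (ρ g)) W

/-- CON: the conductor is `|W| U(W) / |I|`: `∑_{i = 1}^{l} |ram i| = l + ∑_{g ∈ W, g ≠ 1} b g` (`RAM`) -/
def S_CON : Prop := ∀ (k L G : Type) [Field k] [Field L] [Algebra k L] [Group G] [Fintype G]
  (P : Place k L) (ρ : G →* (L ≃ₐ[k] L)) (W I : Subgroup G) (c : ℚ), Function.Injective ρ →
  (W : Set G) = ram P ρ 1 → (I : Set G) = ram P ρ 0 → IsConductor P ρ c →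
  c = 0 ∨ ∃ l : ℤ, IsLst (fun g => P.b (ρ g)) W l ∧
    (Nat.card I : ℚ) * c = Nat.card W * U (fun g => P.b (ρ g)) W l

/-- UPA: denominators of all conductors: `WLD`, `UMW`, `HBP`, `SYG`, `IND`, `CON` -/
def S_UPA : Prop := ∀ (p : ℕ) (k G : Type) [Field k] [Group G] [Finite G] (A : Subgroup G)
  (d m : ℕ), p.Prime → CharP k p → EA p A → ¬ p ∣ m → Nat.card G = p ^ d * Nat.card A * m →
  ∀ c ∈ Cond k G, (∃ z : ℤ, ((p ^ d * m : ℕ) : ℚ) * c = z) ∧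
    (p = 2 → 1 ≤ d → ∃ z : ℤ, ((2 ^ (d - 1) * m : ℕ) : ℚ) * c = z)

/-- NGD -/
def S_NGD : Prop := ∀ (k G : Type) [Field k] [Group G] (D : ℕ), 1 ≤ D →
  (∀ c ∈ Cond k G, ∃ z : ℤ, (D : ℚ) * c = z) → NG k G ∣ D

/-- NGL -/
def S_NGL : Prop := ∀ (k G : Type) [Field k] [Group G] (q : ℕ), 1 ≤ q →
  (∀ c ∈ Cond k G, ∃ z : ℤ, (q : ℚ) * c = z) →
  (∀ N : ℕ, 1 ≤ N → ¬ q ∣ N → {c : ℚ | c ∈ Cond k G ∧ ¬ ∃ z : ℤ, (N : ℚ) * c = z}.Infinite) →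
  NG k G = q

/-- CNG -/
def S_CNG : Prop := ∀ (k G G' : Type) [Field k] [Group G] [Group G'], Nonempty (G ≃* G') →
  NG k G = NG k G'

/-- PTA: first part of the result: `UPA`, `NGD` -/
def S_PTA : Prop := ∀ (p : ℕ) (k G : Type) [Field k] [Group G] [Finite G] (A : Subgroup G)
  (d m : ℕ), p.Prime → CharP k p → EA p A → ¬ p ∣ m → Nat.card G = p ^ d * Nat.card A * m →
  NG k G ∣ p ^ d * m ∧ (p = 2 → 1 ≤ d → NG k G ∣ 2 ^ (d - 1) * m)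

/-! ## The groups `EG k p h` -/

/-- EGC: order: `p ^ (2 h)` roots `w` (separable), `p` roots `β` for each -/
def S_EGC : Prop := ∀ (p : ℕ) (k : Type) [Field k] [IsAlgClosed k] [Fact p.Prime] [CharP k p]
  (h : ℕ), 1 ≤ h → Finite (EG k p h) ∧ Nat.card (EG k p h) = p ^ (2 * h + 1)

/-- EGZ: centre = `{w = 0}` (for `w ≠ 0` the polynomial `B_v(w) - B_w(v)` in `v` is nonzero of degree at
most `p ^ (2 h - 1)`, less than the number of `v`) -/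
def S_EGZ : Prop := ∀ (p : ℕ) (k : Type) [Field k] [IsAlgClosed k] [Fact p.Prime] [CharP k p]
  (h : ℕ), 1 ≤ h → Nat.card (Subgroup.center (EG k p h)) = p ∧
  (∀ g : EG k p h, g ^ p ∈ Subgroup.center (EG k p h)) ∧
  (∀ g g' : EG k p h, g * g' * g⁻¹ * g'⁻¹ ∈ Subgroup.center (EG k p h)) ∧
  (p ≠ 2 → ∀ g : EG k p h, g ^ p = 1)

/-- EGA: elementary abelian subgroup `{w ∈ ζ F_q}`, `ζ ^ (q ^ 2) = - ζ`, `ζ ≠ 0` (`B_w(v)` is symmetric
there); for `p = 2` the subgroup of index `2` of it where `B_w(w) = 0`: additive in `w`,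
`ζ ^ (q + 1) ∈ F_q`, it is `∑_{i < h} (ζ ^ (q + 1) c ^ 2) ^ (2 ^ i)`, `w = ζ c`: values in `F_2`, nonzero by degree -/
def S_EGA : Prop := ∀ (p : ℕ) (k : Type) [Field k] [IsAlgClosed k] [Fact p.Prime] [CharP k p]
  (h : ℕ), 1 ≤ h → ∃ A : Subgroup (EG k p h), EA p A ∧
  (p ≠ 2 → Nat.card (EG k p h) = p ^ h * Nat.card A) ∧
  (p = 2 → Nat.card (EG k p h) = 2 ^ (h + 1) * Nat.card A)

/-- QIS: `p = 2`, `h = 1`: quaternion group of order 8 (`w` in `F_4`, `β ^ 2 + β = w ^ 3`) -/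
def S_QIS : Prop := ∀ (k : Type) [Field k] [IsAlgClosed k] [Fact (Nat.Prime 2)] [CharP k 2],
  Nonempty (QuaternionGroup 2 ≃* EG k 2 1)

/-! ## The covers -/

/-- LSP: the place of the field of Laurent series -/
def S_LSP : Prop := ∀ (k : Type) [Field k], ∃ Λ : Place k (LaurentSeries k),
  ∀ x : LaurentSeries k, x ≠ 0 → Λ.ord x = x.order

/-- SRS: `Y = τ ^ (-m (q + 1))`, `X = τ ^ (-m p) (1 - τ ^ (m (q + 1) (p - 1))) ^ (1 / (q + 1))`,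
`S = τ ^ (-p q ^ 2) (...)`: `n`-th roots (`n` prime to `p`) of power series with constant term `1`
(Hensel, or binomial series).  Here `q = p ^ h`. -/
def S_SRS : Prop := ∀ (p : ℕ) (k : Type) [Field k] (h m : ℕ), p.Prime → CharP k p → 1 ≤ h →
  1 ≤ m → ¬ p ∣ m → ∃ S X Y : LaurentSeries k, S ≠ 0 ∧ X ≠ 0 ∧ Y ≠ 0 ∧
  S.order = -((p * p ^ (2 * h) : ℕ) : ℤ) ∧ X.order = -((m * p : ℕ) : ℤ) ∧
  Y.order = -((m * (p ^ h + 1) : ℕ) : ℤ) ∧
  X ^ (p ^ (2 * h)) + X = S ^ m ∧ Y ^ p - Y = X ^ (p ^ h + 1)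

/-- EMB: embedding of `k(s)`, `s ↦ S` of order `-n < 0` -/
def S_EMB : Prop := ∀ (k : Type) [Field k] (n : ℕ) (S : LaurentSeries k), 1 ≤ n → S ≠ 0 →
  S.order = -(n : ℤ) → ∃ ι : RatFunc k →ₐ[k] LaurentSeries k, ι RatFunc.X = S ∧
  ∀ c : RatFunc k, c ≠ 0 → (n : ℤ) ∣ (ι c).order

/-- VEC: orders of combinations with distinct residues -/
def S_VEC : Prop := ∀ (k L ι : Type) [Field k] [Field L] [Algebra k L] [Fintype ι] (P : Place k L)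
  (n : ℕ) (e c : ι → L), 1 ≤ n → (∀ i, e i ≠ 0) →
  (∀ i j, i ≠ j → ¬ (n : ℤ) ∣ P.ord (e i) - P.ord (e j)) → (∀ i, c i = 0 ∨ (n : ℤ) ∣ P.ord (c i)) →
  (∃ i, c i ≠ 0) → ∑ i, c i * e i ≠ 0 ∧ ∃ i0, c i0 ≠ 0 ∧
    P.ord (∑ i, c i * e i) = P.ord (c i0 * e i0) ∧
    ∀ i, c i ≠ 0 → P.ord (c i0 * e i0) ≤ P.ord (c i * e i)

/-- UNI: the algebra `K[x, y] / (x ^ (q ^ 2) + x - a, y ^ p - y - x ^ (q + 1))`: spanned by
`x ^ i y ^ j`, `i < q ^ 2`, `j < p`, with its universal property -/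
def S_UNI : Prop := ∀ (K : Type) [Field K] (p h : ℕ) (a : K), p.Prime → 1 ≤ h →
  ∃ (R : Type) (_ : CommRing R) (_ : Algebra K R) (x y : R),
  x ^ (p ^ (2 * h)) + x = algebraMap K R a ∧ y ^ p - y = x ^ (p ^ h + 1) ∧
  (∀ z : R, ∃ c : Fin (p ^ (2 * h)) → Fin p → K,
    z = ∑ i, ∑ j, algebraMap K R (c i j) * x ^ (i : ℕ) * y ^ (j : ℕ)) ∧
  (∀ (R' : Type) [CommRing R'] [Algebra K R'] (x' y' : R'),
    x' ^ (p ^ (2 * h)) + x' = algebraMap K R' a → y' ^ p - y' = x' ^ (p ^ h + 1) →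
    ∃ φ : R →ₐ[K] R', φ x = x' ∧ φ y = y')

/-- UNA: the action of `EG k p h` on the algebra of `UNI` (`(g g') y = g (g' y)`) -/
def S_UNA : Prop := ∀ (p : ℕ) (k K R : Type) [Field k] [Field K] [CommRing R] [Algebra k K]
  [Algebra K R] [Algebra k R] [IsScalarTower k K R] [Fact p.Prime] [CharP k p] (h : ℕ) (a : K)
  (x y : R), 1 ≤ h →
  x ^ (p ^ (2 * h)) + x = algebraMap K R a → y ^ p - y = x ^ (p ^ h + 1) →
  (∀ z : R, ∃ c : Fin (p ^ (2 * h)) → Fin p → K,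
    z = ∑ i, ∑ j, algebraMap K R (c i j) * x ^ (i : ℕ) * y ^ (j : ℕ)) →
  (∀ x' y' : R, x' ^ (p ^ (2 * h)) + x' = algebraMap K R a → y' ^ p - y' = x' ^ (p ^ h + 1) →
    ∃ φ : R →ₐ[K] R, φ x = x' ∧ φ y = y') →
  ∃ ρ : EG k p h →* (R ≃ₐ[K] R), ∀ g : EG k p h, ρ g x = x + algebraMap k R g.w ∧
    ρ g y = y + Bf p h (algebraMap k R g.w) x + algebraMap k R g.β

/-- the data of the cover `x ^ (q ^ 2) + x = s ^ m`, `y ^ p - y = x ^ (q + 1)` -/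
structure Cvr (p : ℕ) (k L : Type) [Field k] [Field L] [Algebra k L] [Fact p.Prime] [CharP k p]
    (h m : ℕ) (s x y : L) (ρ : EG k p h →* (L ≃ₐ[k] L)) (P : Place k L) : Prop where
  eq_x : x ^ (p ^ (2 * h)) + x = s ^ m
  eq_y : y ^ p - y = x ^ (p ^ h + 1)
  act_s : ∀ g : EG k p h, ρ g s = s
  act_x : ∀ g : EG k p h, ρ g x = x + algebraMap k L g.w
  act_y : ∀ g : EG k p h, ρ g y = y + Bf p h (algebraMap k L g.w) x + algebraMap k L g.β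
  s_ne : s ≠ 0
  x_ne : x ≠ 0
  y_ne : y ≠ 0
  ord_s : P.ord s = -((p * p ^ (2 * h) : ℕ) : ℤ)
  ord_x : P.ord x = -((m * p : ℕ) : ℤ)
  ord_y : P.ord y = -((m * (p ^ h + 1) : ℕ) : ℤ)
  tr : Transcendental k s
  span : ∀ z : L, ∃ c : Fin (p ^ (2 * h)) → Fin p → L,
    (∀ i j, c i j ∈ IntermediateField.adjoin k {s}) ∧
      z = ∑ i, ∑ j, c i j * x ^ (i : ℕ) * y ^ (j : ℕ)
  ord_base : ∀ c ∈ IntermediateField.adjoin k {s}, c ≠ 0 →
    ((p * p ^ (2 * h) : ℕ) : ℤ) ∣ P.ord c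

/-- CVR: existence.  `K = RatFunc k`, `a = X ^ m`, `R` from `UNI`, `ρ` from `UNA`; `SRS`, `EMB`, `LSP` and
`UNI` give `φ : R → LaurentSeries k`, injective by `VEC` (`m` prime to `p`: the orders of `X ^ i Y ^ j` are
distinct modulo `p q ^ 2`), so `R` is a domain, finite over `K`, a field `L`; `P.ord z = (φ z).order`
(order `1` occurs: the orders of `S`, `X`, `Y` have gcd `1`) -/
def S_CVR : Prop := ∀ (p : ℕ) (k : Type) [Field k] [Fact p.Prime] [CharP k p] (h m : ℕ), 1 ≤ h →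
  1 ≤ m → ¬ p ∣ m → ∃ (L : Type) (_ : Field L) (_ : Algebra k L) (s x y : L)
  (ρ : EG k p h →* (L ≃ₐ[k] L)) (P : Place k L), Cvr p k L h m s x y ρ P

/-- CVF: all `ρ g` fix `P` (`VEC` with `e = x ^ i y ^ j` and with `e = ρ g (x ^ i y ^ j)`, of the same orders) -/
def S_CVF : Prop := ∀ (p : ℕ) (k L : Type) [Field k] [Field L] [Algebra k L] [Fact p.Prime]
  [CharP k p] (h m : ℕ) (s x y : L) (ρ : EG k p h →* (L ≃ₐ[k] L)) (P : Place k L), 1 ≤ h → 1 ≤ m →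
  ¬ p ∣ m → Cvr p k L h m s x y ρ P → ∀ g : EG k p h, Fixes P (ρ g)

/-- CVC: it is a cover (`EGC`; fixed field by Artin and `span`: degree at most `p q ^ 2`; at a place
`P'` with `s` finite `x`, `y` are finite, so a `g` fixing `P'` has `w = 0`, then `β = 0`) -/
def S_CVC : Prop := ∀ (p : ℕ) (k L : Type) [Field k] [IsAlgClosed k] [Field L] [Algebra k L]
  [Fact p.Prime] [CharP k p] (h m : ℕ) (s x y : L) (ρ : EG k p h →* (L ≃ₐ[k] L)) (P : Place k L),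
  1 ≤ h → 1 ≤ m → ¬ p ∣ m → Cvr p k L h m s x y ρ P → IsCover ρ s

/-- CVB: `b` of the elements (`CVF`, `TMO`, `LO2` with `x := y`; `ρ g = 1` only for `g = 1`) -/
def S_CVB : Prop := ∀ (p : ℕ) (k L : Type) [Field k] [IsAlgClosed k] [Field L] [Algebra k L]
  [Fact p.Prime] [CharP k p] (h m : ℕ) (s x y : L) (ρ : EG k p h →* (L ≃ₐ[k] L)) (P : Place k L),
  1 ≤ h → 1 ≤ m → ¬ p ∣ m → Cvr p k L h m s x y ρ P →
  ∀ g : EG k p h, g ≠ 1 → (g.w ≠ 0 → P.b (ρ g) = m) ∧ (g.w = 0 → P.b (ρ g) = m * (p ^ h + 1))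

/-- CVN: the conductor (`CVB`, `CVF`, `CVC`, `RAM`, `EGC`): `|ram i| = p q ^ 2` for `i ≤ m`, `p` for
`m < i ≤ m (q + 1)`, then `1`: `c = m (q + 1) / q` -/
def S_CVN : Prop := ∀ (p : ℕ) (k L : Type) [Field k] [IsAlgClosed k] [Field L] [Algebra k L]
  [Fact p.Prime] [CharP k p] (h m : ℕ) (s x y : L) (ρ : EG k p h →* (L ≃ₐ[k] L)) (P : Place k L),
  1 ≤ h → 1 ≤ m → ¬ p ∣ m → Cvr p k L h m s x y ρ P →
  IsConductor P ρ ((m * (p ^ h + 1) : ℚ) / p ^ h)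

/-- LOW: from `CVR`, `CVC`, `CVN` -/
def S_LOW : Prop := ∀ (p : ℕ) (k : Type) [Field k] [IsAlgClosed k] [Fact p.Prime] [CharP k p]
  (h m : ℕ), 1 ≤ h → 1 ≤ m → ¬ p ∣ m → ((m * (p ^ h + 1) : ℚ) / p ^ h) ∈ Cond k (EG k p h)

/-- NGE: from `LOW`, `UPA`, `EGA`, `EGC`, `NGL` -/
def S_NGE : Prop := ∀ (p : ℕ) (k : Type) [Field k] [IsAlgClosed k] [Fact p.Prime] [CharP k p]
  (h : ℕ), 1 ≤ h → NG k (EG k p h) = p ^ h

/-- PTB: second part of the result: `NGE`, `EGC`, `EGZ` -/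
def S_PTB : Prop := ∀ (p : ℕ) (k : Type) [Field k] [IsAlgClosed k] [Fact p.Prime] [CharP k p]
  (h : ℕ), 1 ≤ h → ∃ (G : Type) (_ : Group G) (_ : Finite G), Nat.card G = p ^ (2 * h + 1) ∧
  Nat.card (Subgroup.center G) = p ∧ (∀ g : G, g ^ p ∈ Subgroup.center G) ∧
  (∀ g g' : G, g * g' * g⁻¹ * g'⁻¹ ∈ Subgroup.center G) ∧ (p ≠ 2 → ∀ g : G, g ^ p = 1) ∧
  NG k G = p ^ h

/-- PTC: third part of the result: `PTA`, `QIS`, `CNG`, `NGE` -/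
def S_PTC : Prop := ∀ (k : Type) [Field k] [IsAlgClosed k] [CharP k 2],
  NG k (DihedralGroup 4) = 1 ∧ NG k (QuaternionGroup 2) = 2

end Pool.CND
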